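import Pool.Agent.Lib.MP_ae7657_co.Main

namespace Pool.Agent.Results.MP_ae7657_co.Folkman483

/-- There is a `K₄`-free graph on 483 vertices such that every 2-colouring of its edges has a
monochromatic triangle, that is, `F_e(3,3;4) ≤ 483`. -/
theorem result : ∃ G : SimpleGraph (Fin 483), G.CliqueFree 4 ∧
    ∀ c : G.edgeSet → Fin 2, ∃ (x y z : Fin 483) (hxy : G.Adj x y) (hyz : G.Adj y z) (hxz : G.Adj x z),
      c ⟨s(x, y), hxy⟩ = c ⟨s(y, z), hyz⟩ ∧ c ⟨s(y, z), hyz⟩ = c ⟨s(x, z), hxz⟩ := by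
  classical
  refine ⟨Pool.Agent.Lib.MP_ae7657_co.GG, Pool.Agent.Lib.MP_ae7657_co.GG_free, fun c => ?_⟩
  obtain ⟨x, y, z, h1, h2, h3, h4, h5⟩ := Pool.Agent.Lib.MP_ae7657_co.GG_arrow
    fun e => if h : e ∈ Pool.Agent.Lib.MP_ae7657_co.GG.edgeSet then c ⟨e, h⟩ else 0
  refine ⟨x, y, z, h1, h2, h3, ?_, ?_⟩
  · simpa [h1, h2] using h4
  · simpa [h2, h3] using h5

end Pool.Agent.Results.MP_ae7657_co.Folkman483
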